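import Mathlib
import Pool.Agent.TH189.Aut7

/-!
# Smooth subvarieties of codimension `r ≤ N / 6` with a diagonal automorphism of large order

Let `X ⊂ ℙ^N` be a nonsingular irreducible closed subvariety of codimension `r`, `6 r ≤ N`, cut out
set-theoretically by forms of degree at most `d`.  Suppose that `X` is stable under a linear
automorphism `x_i ↦ μ_i x_i` (in suitable coordinates), of finite or infinite order, such that
`μ_i / μ_j` is not a root of unity of order at most `(2 d) ^ N`, for all `i ≠ j`.  Then `X` is a
complete intersection.

The proof.  Consider the lattice generated by the differences of exponents of the pairs of monomials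
of the same degree `≤ d` on which the automorphism acts by the same scalar.  If `e_i - e_j` is in the
rational span of the lattice, then some multiple `m (e_i - e_j)` with `m ≤ (2 d) ^ N` is in the
lattice, by a determinant, so that `μ_i ^ m = μ_j ^ m`.  Otherwise there are integral weights
orthogonal to the lattice which are pairwise distinct.  By interpolation `X` is stable under the
corresponding action of the multiplicative group, and the theorem `MP_9a3fdb_ag.TorusStable` of the
starting files applies.
-/

set_option autoImplicit false

namespace Pool.Agent.Results.MP_014caa_ag.LargeOrderAutomorphism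

open MvPolynomial Pool.Agent.H929R2.Hart

/-- `I` is the homogeneous ideal of a nonsingular irreducible closed subvariety `X` of
codimension `r` of the complex projective space `ℙ^N`: it is a homogeneous prime ideal, `X` is not
empty, and at every point of `X` the gradients of the elements of `I` span a space of dimension
`r` (Jacobian criterion).  (`cone I` is the set of the common zeros of `I` in `ℂ^(N+1)`, and
`conormal I x` the span of the gradients at `x` of the elements of `I`.) -/
structure IsSmoothVariety (N r : ℕ) (I : Ideal (MvPolynomial (Fin (N + 1)) ℂ)) : Prop where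
  prime : I.IsPrime
  homogeneous : ∀ F ∈ I, ∀ d, homogeneousComponent d F ∈ I
  nonempty : ∃ x ∈ cone I, x ≠ 0
  smooth : ∀ x ∈ cone I, x ≠ 0 → Module.finrank ℂ (conormal I x) = r

/-- `X` is cut out set-theoretically by forms of degree at most `d`. -/
def IsCutOut {N : ℕ} (d : ℕ) (I : Ideal (MvPolynomial (Fin (N + 1)) ℂ)) : Prop :=
  ∀ x, (∀ F ∈ I, F.totalDegree ≤ d → eval x F = 0) → x ∈ cone I

/-- **Smooth subvarieties of small codimension with a diagonal automorphism of large order.** -/
theorem result (N r d : ℕ) (hN : 6 * r ≤ N) (hd : 1 ≤ d)
    (I : Ideal (MvPolynomial (Fin (N + 1)) ℂ)) (hI : IsSmoothVariety N r I) (hcut : IsCutOut d I)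
    -- `X` is stable under the automorphism `x_i ↦ μ_i x_i`
    (μ : Fin (N + 1) → ℂ) (hμ : ∀ i, μ i ≠ 0)
    (hst : ∀ x ∈ cone I, (fun i => μ i * x i) ∈ cone I)
    -- the ratios `μ_i / μ_j` are not roots of unity of order at most `(2 d) ^ N`
    (hord : ∀ i j, i ≠ j → ∀ m : ℕ, 0 < m → m ≤ (2 * d) ^ N → μ i ^ m ≠ μ j ^ m) :
    -- `X` is a complete intersection
    ∃ F : Fin r → MvPolynomial (Fin (N + 1)) ℂ, (∀ i, ∃ e, (F i).IsHomogeneous e) ∧
      I = Ideal.span (Set.range F) := by
  obtain ⟨w, hw, hst'⟩ := TH189.Aut.exists_distinct hI.homogeneous d hd hcut μ hμ hst (by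
    rw [Fintype.card_fin, Nat.add_sub_cancel]
    exact hord)
  obtain ⟨F, hF, -, -, hF'⟩ := main_distinct N r (Fintype.card_fin _) hN I hI.prime
    hI.homogeneous hI.nonempty hI.smooth w hw hst'
  exact ⟨F, hF, hF'⟩

end Pool.Agent.Results.MP_014caa_ag.LargeOrderAutomorphism
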